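import Pool.Agent.H95.Dig

set_option autoImplicit false
open Pool.Agent.H95.Dig

theorem Pool.Agent.Results.MP_d2a7e5_an.NotCM.result :
    ∃ (n : ℕ) (x : ℝ), -1 < x ∧ (-1) ^ n * iteratedDeriv n G x < 0 :=
  Pool.Agent.H95.Dig.main
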